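import Pool.Agent.helper64.AX.SpecD

set_option autoImplicit false

/-! Module `DNO` of project AX (MP_2e0e07_nt): normal subgroups of a finite group with the fixed point axioms. -/

namespace Pool.Agent.AX

open Matrix

/-- a `p`-element of a group of order prime to `p` is trivial -/
theorem DNO_triv (p : ℕ) [Fact p.Prime] {Z : Type} (N : Subgroup (Equiv.Perm Z))
    (hN : ¬ p ∣ Nat.card N) (n : Equiv.Perm Z) (hn : n ∈ N) (h : PE p n) : n = 1 := by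
  obtain ⟨k, hk⟩ := h
  have h1 : orderOf n ∣ p ^ k := orderOf_dvd_of_pow_eq_one hk
  obtain ⟨j, -, hj⟩ := (Nat.dvd_prime_pow (Fact.out : p.Prime)).1 h1
  have h2 : orderOf n ∣ Nat.card N := Subgroup.orderOf_dvd_natCard N hn
  rcases Nat.eq_zero_or_pos j with h0 | h0
  · rw [h0, pow_zero] at hj
    exact orderOf_eq_one_iff.1 hj
  · exfalso
    apply hN
    refine dvd_trans ?_ h2
    rw [hj]
    exact dvd_pow_self p h0.ne'

/-- the group generated by `N` and `u` -/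
def DNO_H {Z : Type} (H N : Subgroup (Equiv.Perm Z)) (u : Equiv.Perm Z) (hu : u ∈ H)
    (hN : ∀ h ∈ H, ∀ n ∈ N, h * n * h⁻¹ ∈ N) : Subgroup (Equiv.Perm Z) where
  carrier := {h | ∃ n ∈ N, ∃ i : ℤ, h = n * u ^ i}
  mul_mem' := by
    rintro a b ⟨n, hn, i, rfl⟩ ⟨m, hm, j, rfl⟩
    refine ⟨n * (u ^ i * m * (u ^ i)⁻¹), N.mul_mem hn (hN _ (H.zpow_mem hu i) _ hm), i + j, ?_⟩
    rw [_root_.zpow_add]
    group
  one_mem' := ⟨1, N.one_mem, 0, by simp⟩
  inv_mem' := by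
    rintro a ⟨n, hn, i, rfl⟩
    refine ⟨u ^ (-i) * n⁻¹ * (u ^ (-i))⁻¹, hN _ (H.zpow_mem hu (-i)) _ (N.inv_mem hn), -i, ?_⟩
    group

theorem DNO_mem {Z : Type} (H N : Subgroup (Equiv.Perm Z)) (u : Equiv.Perm Z) (hu : u ∈ H)
    (hN : ∀ h ∈ H, ∀ n ∈ N, h * n * h⁻¹ ∈ N) (h : Equiv.Perm Z) :
    h ∈ DNO_H H N u hu hN ↔ ∃ n ∈ N, ∃ i : ℤ, h = n * u ^ i := Iff.rfl

/-- an element of order `p` -/
theorem DNO_cauchy (p : ℕ) [Fact p.Prime] {Z : Type} (H : Subgroup (Equiv.Perm Z))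
    (hfin : (H : Set (Equiv.Perm Z)).Finite) (hp : p ∣ Nat.card H) :
    ∃ u ∈ H, orderOf u = p ∧ u ≠ 1 ∧ PE p u := by
  have hF : Finite H := hfin.to_subtype
  obtain ⟨u, hu⟩ := exists_prime_orderOf_dvd_card' (G := H) p hp
  have h1 : orderOf (u : Equiv.Perm Z) = p := by rw [Subgroup.orderOf_coe, hu]
  refine ⟨u, u.2, h1, ?_, 1, ?_⟩
  · intro h0
    rw [h0, orderOf_one] at h1
    exact (Fact.out : p.Prime).one_lt.ne h1
  · rw [pow_one]
    exact orderOf_dvd_iff_pow_eq_one.1 (dvd_of_eq h1)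

theorem DNO_fix {Z : Type} (u : Equiv.Perm Z) (x : Z) (hx : u x = x) (i : ℤ) : (u ^ i) x = x :=
  Equiv.Perm.zpow_apply_eq_self_of_apply_eq_self hx i

/-- part (i): `p` divides the order of `N` -/
theorem DNO_dvd (hDFI : DFI_stmt) (p : ℕ) [Fact p.Prime] (Z : Type) (H N : Subgroup (Equiv.Perm Z))
    (h5 : 5 ≤ p) (hH : FPA p H) (hp : p ∣ Nat.card H) (hNH : N ≤ H) (hN1 : N ≠ ⊥)
    (hN : ∀ h ∈ H, ∀ n ∈ N, h * n * h⁻¹ ∈ N) : p ∣ Nat.card N := by
  by_contra hpN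
  obtain ⟨u, hu, hup, hu1, huP⟩ := DNO_cauchy p H hH.fin hp
  obtain ⟨x, hx⟩ := hH.one u hu hu1 huP
  have hux : u x = x := (hx x).2 rfl
  have hupow : u ^ p = 1 := orderOf_dvd_iff_pow_eq_one.1 (dvd_of_eq hup)
  -- the stabiliser of `x` in `N` is trivial
  have hB : ∀ n ∈ N, n x = x → n = 1 := by
    intro n hn hnx
    have hnH := hNH hn
    have hnx' : n⁻¹ x = x := by rw [Equiv.Perm.inv_eq_iff_eq]; exact hnx.symm
    have hux' : u⁻¹ x = x := by rw [Equiv.Perm.inv_eq_iff_eq]; exact hux.symm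
    have h1 : n * u⁻¹ * n⁻¹ ∈ H := H.mul_mem (H.mul_mem hnH (H.inv_mem hu)) (H.inv_mem hnH)
    have h2 : (n * u⁻¹ * n⁻¹) x = x := by
      rw [Equiv.Perm.mul_apply, Equiv.Perm.mul_apply, hnx', hux', hnx]
    have h3 : PE p (n * u⁻¹ * n⁻¹) := ⟨1, by
      rw [pow_one, conj_pow, inv_pow, hupow, inv_one, mul_one, mul_inv_cancel]⟩
    have h4 : PE p (u * (n * u⁻¹ * n⁻¹)) := hH.mul u hu _ h1 x hux h2 huP h3
    have h6 : u * (n * u⁻¹ * n⁻¹) ∈ N := by
      have e : u * (n * u⁻¹ * n⁻¹) = (u * n * u⁻¹) * n⁻¹ := by group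
      rw [e]
      exact N.mul_mem (hN u hu n hn) (N.inv_mem hn)
    have h7 : u * (n * u⁻¹ * n⁻¹) = 1 := DNO_triv p N hpN _ h6 h4
    have h8 : u * n = n * u := by
      have e : u * n = (u * (n * u⁻¹ * n⁻¹)) * (n * u) := by group
      rw [e, h7, one_mul]
    exact DNO_triv p N hpN n hn (hH.com u hu n hnH x hux hnx huP hu1 h8)
  -- the group generated by `N` and `u`
  have hle : DNO_H H N u hu hN ≤ H := by
    intro h hh
    obtain ⟨n, hn, i, rfl⟩ := (DNO_mem H N u hu hN h).1 hh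
    exact H.mul_mem (hNH hn) (H.zpow_mem hu i)
  have huH' : ∀ i : ℤ, u ^ i ∈ DNO_H H N u hu hN := fun i =>
    (DNO_mem H N u hu hN _).2 ⟨1, N.one_mem, i, by rw [one_mul]⟩
  have huH : u ∈ DNO_H H N u hu hN := by
    have := huH' 1
    rwa [zpow_one] at this
  have hNH' : ∀ n ∈ N, n ∈ DNO_H H N u hu hN := fun n hn =>
    (DNO_mem H N u hu hN _).2 ⟨n, hn, 0, by rw [zpow_zero, mul_one]⟩
  have hFPA := hH.mono hle
  have hpH' : p ∣ Nat.card (DNO_H H N u hu hN) := by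
    have h1 := Subgroup.orderOf_dvd_natCard (DNO_H H N u hu hN) huH
    rwa [hup] at h1
  have hno : NoFix (DNO_H H N u hu hN) := by
    intro z
    by_contra hz
    have hz' : ∀ h ∈ DNO_H H N u hu hN, h z = z := fun h hh => by
      by_contra h1
      exact hz ⟨h, hh, h1⟩
    have h1 : z = x := (hx z).1 (hz' u huH)
    apply hN1
    rw [Subgroup.eq_bot_iff_forall]
    intro n hn
    exact hB n hn (h1 ▸ hz' n (hNH' n hn))
  obtain ⟨k, e, -, he, -, hdiv, -, -, -, hall⟩ := hDFI p Z (DNO_H H N u hu hN) h5 hFPA hpH' hno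
  obtain ⟨hU, hS⟩ := hall x ⟨u, huH, hu1, huP, hux⟩
  -- the stabiliser of `x` is the group generated by `u`
  have hSt : St (DNO_H H N u hu hN) x = (Subgroup.zpowers u : Set (Equiv.Perm Z)) := by
    ext h
    constructor
    · rintro ⟨hh, hhx⟩
      obtain ⟨n, hn, i, rfl⟩ := (DNO_mem H N u hu hN h).1 hh
      rw [Equiv.Perm.mul_apply, DNO_fix u x hux i] at hhx
      rw [hB n hn hhx, one_mul]
      exact ⟨i, rfl⟩
    · rintro ⟨i, rfl⟩
      exact ⟨huH' i, DNO_fix u x hux i⟩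
  have hUs : Us p (DNO_H H N u hu hN) x = St (DNO_H H N u hu hN) x := by
    ext h
    constructor
    · rintro ⟨h1, h2, -⟩
      exact ⟨h1, h2⟩
    · intro hh
      have h1 := hh
      rw [hSt] at h1
      obtain ⟨i, rfl⟩ := h1
      refine ⟨hh.1, hh.2, 1, ?_⟩
      show (u ^ i) ^ p ^ 1 = 1
      rw [pow_one, ← zpow_natCast, ← _root_.zpow_mul, mul_comm, _root_.zpow_mul, zpow_natCast, hupow, _root_.one_zpow]
  have hcard : (St (DNO_H H N u hu hN) x).ncard = p := by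
    rw [hSt]
    have h1 : Nat.card (Subgroup.zpowers u) = p := by rw [Nat.card_zpowers, hup]
    rw [← h1]
    rfl
  rw [hUs, hcard] at hU
  rw [hcard, ← hU] at hS
  have he1 : e = 1 := by
    have hp0 : 0 < p := (Fact.out : p.Prime).pos
    exact (Nat.eq_of_mul_eq_mul_left hp0 (by rw [mul_one]; exact hS)).symm
  rw [he1, ← hU, mul_one] at hdiv
  have := Nat.le_of_dvd (by norm_num) hdiv
  omega

theorem DNO (hDSY : DSY_stmt) (hDFI : DFI_stmt) : DNO_stmt := by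
  intro p _ Z H N h5 hH hp hno hNH hN1 hN
  have hpN := DNO_dvd hDFI p Z H N h5 hH hp hNH hN1 hN
  have hNF := hH.mono hNH
  have hnoN : NoFix N := by
    intro x
    by_contra hc
    have hc' : ∀ n ∈ N, n x = x := fun n hn => by
      by_contra h1
      exact hc ⟨n, hn, h1⟩
    obtain ⟨v, hv, -, hv1, hvP⟩ := DNO_cauchy p N hNF.fin hpN
    obtain ⟨z, hz⟩ := hNF.one v hv hv1 hvP
    obtain ⟨h, hh, hhx⟩ := hno x
    apply hhx
    have h1 : v (h x) = h x := by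
      have h2 : h⁻¹ * v * h⁻¹⁻¹ ∈ N := hN h⁻¹ (H.inv_mem hh) v hv
      have h3 := hc' _ h2
      have e : v * h = h * (h⁻¹ * v * h⁻¹⁻¹) := by group
      calc v (h x) = (v * h) x := rfl
        _ = (h * (h⁻¹ * v * h⁻¹⁻¹)) x := by rw [← e]
        _ = h ((h⁻¹ * v * h⁻¹⁻¹) x) := rfl
        _ = h x := by rw [h3]
    rw [(hz _).1 h1, ← (hz _).1 (hc' v hv)]
  refine ⟨hpN, hnoN, ?_⟩
  obtain ⟨k, e, hk, he, hediv, -, -, hOm, hcH, -⟩ := hDFI p Z H h5 hH hp hno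
  obtain ⟨k', e', hk', he', -, hdiv', -, hOm', hcN, -⟩ := hDFI p Z N h5 hNF hpN hnoN
  have hsub : Om p N ⊆ Om p H := by
    rintro z ⟨n, hn, hn1, hnP, hnz⟩
    exact ⟨n, hNH hn, hn1, hnP, hnz⟩
  have hst : ∀ z ∈ Om p N, ∀ h ∈ H, h z ∈ Om p N := by
    rintro z ⟨n, hn, hn1, hnP, hnz⟩ h hh
    refine ⟨h * n * h⁻¹, hN h hh n hn, ?_, ?_, ?_⟩
    · intro h0
      apply hn1
      have e1 : n = h⁻¹ * (h * n * h⁻¹) * h := by group
      rw [e1, h0]
      group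
    · obtain ⟨j, hj⟩ := hnP
      exact ⟨j, by rw [conj_pow, hj, mul_one, mul_inv_cancel]⟩
    · show (h * n * h⁻¹) (h z) = h z
      have e2 : h⁻¹ (h z) = z := by
        rw [← Equiv.Perm.mul_apply, inv_mul_cancel]
        rfl
      rw [Equiv.Perm.mul_apply, Equiv.Perm.mul_apply, e2, hnz]
  have hne : (Om p N).Nonempty := by
    rw [Set.nonempty_iff_ne_empty]
    intro h0
    rw [h0, Set.ncard_empty] at hOm'
    omega
  obtain ⟨x, hx⟩ := hne
  have hEq : Om p N = Om p H := by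
    refine Set.Subset.antisymm hsub fun y hy => ?_
    obtain ⟨h, hh, hhx⟩ := (hDSY p Z H hH).2.1 x (hsub hx) y hy
    rw [← hhx]
    exact hst x hx h hh
  have hq : p ^ k' = p ^ k := by
    rw [hEq, hOm] at hOm'
    omega
  rw [hcH, hcN, hq]
  rw [hq] at hdiv'
  have h1 : 1 < p ^ k := Nat.one_lt_pow (by omega) (Fact.out : p.Prime).one_lt
  have h2 : e ≤ p ^ k - 1 := Nat.le_of_dvd (by omega) hediv
  have h3 : p ^ k - 1 ≤ 2 * e' := Nat.le_of_dvd (by omega) hdiv'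
  have h4 : e ≤ 2 * e' := h2.trans h3
  calc (p ^ k + 1) * (p ^ k * e) ≤ (p ^ k + 1) * (p ^ k * (2 * e')) :=
        Nat.mul_le_mul_left _ (Nat.mul_le_mul_left _ h4)
    _ = 2 * ((p ^ k + 1) * (p ^ k * e')) := by ring

end Pool.Agent.AX
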